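import Mathlib
import Pool.Agent.H751R3.JT.Branch

set_option autoImplicit false

/-!
# MP_3f5b22_an : a Green's function of a periodic Jacobi matrix on a tree with a branch point that
is not of square-root type

The graph has one vertex and three loops, with weights `a₁ = a₂ ≠ a₃` and `b = 0`; the universal
cover is the 6-regular tree.
-/

namespace Pool.Agent.Results.MP_3f5b22_an.RamificationThree

open Filter Topology

/-- A graph with vertex set `V`; loops and multiple edges are allowed.  `D` is the set of directed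
edges, `src e` the initial vertex of `e`, and `rev e` the same edge with the other direction. -/
structure Gr (V D : Type) where
  /-- initial vertex -/
  src : D → V
  /-- reversal -/
  rev : D → D
  rev_rev : ∀ e, rev (rev e) = e
  rev_ne : ∀ e, rev e ≠ e

/-- Any two vertices are joined by a chain of edges, and there is a vertex. -/
def Gr.Connected {V D : Type} (G : Gr V D) : Prop :=
  Nonempty V ∧ ∀ x y : V,
    Relation.ReflTransGen (fun x y => ∃ e, G.src e = x ∧ G.src (G.rev e) = y) x y

/-- `T` is the universal cover of `G`, with covering map `ξ` on vertices and `η` on directed edges: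
`T` is a tree, and the covering map is compatible with initial vertices and reversal and maps the
directed edges at `y` bijectively to those at `ξ y`. -/
structure IsUniversalCover {V D W : Type} (G : Gr V D) (T : SimpleGraph W) (ξ : W → V)
    (η : T.Dart → D) : Prop where
  tree : T.IsTree
  src : ∀ e : T.Dart, G.src (η e) = ξ e.fst
  rev : ∀ e : T.Dart, η e.symm = G.rev (η e)
  bij : ∀ (y : W) (d : D), G.src d = ξ y → ∃! e : T.Dart, e.fst = y ∧ η e = d

/-- `ℓ²(W)`, complex valued. -/
abbrev L2 (W : Type) : Type := lp (fun _ : W => ℂ) 2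

/-- Bounded operators on `ℓ²(W)`. -/
abbrev Op (W : Type) : Type := L2 W →L[ℂ] L2 W

/-- `H` is the periodic Jacobi matrix with parameters `a`, `b`:
`(H u)(y) = b(ξ y) u(y) + ∑_e a(η e) u(y')`, over the edges `e` of `T` from `y` to `y'`. -/
def IsJacobi {V D W : Type} (a : D → ℝ) (b : V → ℝ) (T : SimpleGraph W) (ξ : W → V)
    (η : T.Dart → D) (H : Op W) : Prop :=
  ∀ (u : L2 W) (y : W), H u y = (b (ξ y) : ℂ) * u y +
    ∑' e : {e : T.Dart // e.fst = y}, (a (η e.1) : ℂ) * u e.1.snd

/-- the unit vector at `y` -/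
noncomputable def unit {W : Type} (y : W) : L2 W := by
  classical exact lp.single 2 y (1 : ℂ)

/-- `(H - z) u = f` -/
def Solves {W : Type} (H : Op W) (z : ℂ) (f u : L2 W) : Prop := ∀ w : W, H u w - z * u w = f w

/-- On the upper half plane `H - z` is bijective and `G(z) = ⟨δ_y, (H - z)⁻¹ δ_y⟩`. -/
def IsGreen {W : Type} (H : Op W) (y : W) (G : ℂ → ℂ) : Prop :=
  ∀ z : ℂ, 0 < z.im → (∀ f : L2 W, ∃! u : L2 W, Solves H z f u) ∧
    ∀ u : L2 W, Solves H z (unit y) u → G z = u y

/-- `P(z, G(z)) = 0` for all `z` in the upper half plane. -/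
def Vanishes (P : MvPolynomial (Fin 2) ℂ) (G : ℂ → ℂ) : Prop :=
  ∀ z : ℂ, 0 < z.im → MvPolynomial.eval ![z, G z] P = 0

/-- The Riemann surface of the algebraic function given by `G` on the upper half plane has a point
of ramification index `k`: there is an injective analytic local parametrisation `t ↦ (Z t, U t)`
whose image lies on the curve (every polynomial relation between `z` and `G(z)` holds on it), and
`Z - Z 0` vanishes at `0` to order exactly `k`. -/
def HasRamificationIndex (G : ℂ → ℂ) (k : ℕ) : Prop :=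
  ∃ Z U : ℂ → ℂ, AnalyticAt ℂ Z 0 ∧ AnalyticAt ℂ U 0 ∧
    (∃ r : ℝ, 0 < r ∧ Set.InjOn (fun t => (Z t, U t)) (Metric.ball 0 r)) ∧
    (∀ P : MvPolynomial (Fin 2) ℂ, Vanishes P G →
      ∀ᶠ t in 𝓝 (0 : ℂ), MvPolynomial.eval ![Z t, U t] P = 0) ∧
    analyticOrderAt (fun t => Z t - Z 0) 0 = k

theorem unit_apply {W : Type} (y w : W) [Decidable (w = y)] :
    unit y w = if w = y then 1 else 0 := by
  classical
  unfold unit
  rw [lp.single_apply]
  by_cases h : w = y
  · subst h; simp
  · simp [h]

theorem unit_eq (y : H751R3.JT.W) : unit y = H751R3.JT.dl y := by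
  apply lp.ext
  funext w
  rw [H751R3.JT.dl_apply, unit_apply]

theorem solves_iff {W : Type} (H : Op W) (z : ℂ) (f u : L2 W) :
    Solves H z f u ↔ H u - z • u = f := by
  constructor
  · intro h
    apply lp.ext
    funext w
    exact h w
  · rintro rfl w
    rfl

theorem isGreen : IsGreen (H751R3.JT.opH H751R3.JT.av) H751R3.JT.e0 H751R3.JT.gr := by
  intro z hz
  have hu := H751R3.JT.isUnit_sub H751R3.JT.av hz
  refine ⟨fun f => ?_, fun u h => ?_⟩
  · refine ⟨(Ring.inverse (H751R3.JT.opH H751R3.JT.av - z • 1)) f, ?_, ?_⟩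
    · have h2 := Ring.mul_inverse_cancel _ hu
      exact (solves_iff _ _ _ _).2
        (congrArg (fun S : L2 H751R3.JT.W →L[ℂ] L2 H751R3.JT.W => S f) h2)
    · intro u h
      exact (H751R3.JT.inverse_apply H751R3.JT.av hz ((solves_iff _ _ _ _).1 h)).symm
  · rw [unit_eq, solves_iff] at h
    unfold H751R3.JT.gr
    rw [H751R3.JT.inverse_apply H751R3.JT.av hz h]

/-- the directed edges at `y` -/
noncomputable def star (y : H751R3.JT.W) :
    H751R3.JT.L ≃ {e : H751R3.JT.T.Dart // e.fst = y} where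
  toFun := fun c => ⟨H751R3.JT.dart y c, rfl⟩
  invFun := fun e => H751R3.JT.lab e.1
  left_inv := fun c => H751R3.JT.lab_dart y c
  right_inv := fun e => by
    obtain ⟨e, he⟩ := e
    apply Subtype.ext
    change H751R3.JT.dart y (H751R3.JT.lab e) = e
    rw [← he, H751R3.JT.dart_lab]

theorem isJacobi : IsJacobi (fun c : H751R3.JT.L => H751R3.JT.av c.1) (fun _ : Unit => 0)
    H751R3.JT.T (fun _ => ()) H751R3.JT.lab (H751R3.JT.opH H751R3.JT.av) := by
  intro u y
  rw [H751R3.JT.opH_apply, ← (star y).tsum_eq, tsum_fintype, Complex.ofReal_zero, zero_mul,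
    zero_add]
  refine Finset.sum_congr rfl fun c _ => ?_
  have h1 : H751R3.JT.lab (star y c).1 = c := H751R3.JT.lab_dart y c
  rw [h1]
  rfl

theorem isCover : IsUniversalCover (⟨fun _ => (), H751R3.JT.inv, H751R3.JT.inv_inv,
    H751R3.JT.inv_ne⟩ : Gr Unit H751R3.JT.L) H751R3.JT.T (fun _ => ()) H751R3.JT.lab := by
  refine ⟨H751R3.JT.T_isTree, fun e => rfl, H751R3.JT.lab_symm, fun y d _ => ?_⟩
  refine ⟨H751R3.JT.dart y d, ⟨rfl, H751R3.JT.lab_dart y d⟩, ?_⟩
  rintro e ⟨h1, h2⟩
  rw [← h1, ← h2, H751R3.JT.dart_lab]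

theorem ramified : HasRamificationIndex H751R3.JT.gr 3 :=
  ⟨H751R3.JT.Zt, H751R3.JT.Wt, H751R3.JT.Zt_analytic, H751R3.JT.Wt_analytic,
    H751R3.JT.inj, fun P hP => H751R3.JT.branch_rel P hP, H751R3.JT.order_three⟩

theorem algebraic : ∃ P : MvPolynomial (Fin 2) ℂ, P ≠ 0 ∧ Vanishes P H751R3.JT.gr :=
  ⟨H751R3.JT.PP, H751R3.JT.PP_ne, fun _ hz => H751R3.JT.PP_green hz⟩

/-- There are a finite connected graph `Γ` that is not a tree (it has at least as many edges as
vertices), Jacobi parameters `a > 0` on its edges and `b` on its vertices, and a vertex `y` of its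
universal cover `T`, such that the Green's function `G` at `y` of the periodic Jacobi matrix `H` on
`ℓ²(T)`, which is algebraic, has a point of its Riemann surface with ramification index `3`. -/
theorem result : ∃ (V D W : Type) (_ : Fintype V) (_ : Fintype D) (Γ : Gr V D)
    (a : D → ℝ) (b : V → ℝ) (T : SimpleGraph W) (ξ : W → V) (η : T.Dart → D) (H : Op W) (y : W)
    (G : ℂ → ℂ),
    Γ.Connected ∧ 2 * Fintype.card V ≤ Fintype.card D ∧
    (∀ e, 0 < a e) ∧ (∀ e, a (Γ.rev e) = a e) ∧
    IsUniversalCover Γ T ξ η ∧ IsJacobi a b T ξ η H ∧ IsGreen H y G ∧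
    (∃ P : MvPolynomial (Fin 2) ℂ, P ≠ 0 ∧ Vanishes P G) ∧
    HasRamificationIndex G 3 := by
  refine ⟨Unit, H751R3.JT.L, H751R3.JT.W, inferInstance, inferInstance,
    ⟨fun _ => (), H751R3.JT.inv, H751R3.JT.inv_inv, H751R3.JT.inv_ne⟩,
    fun c => H751R3.JT.av c.1, fun _ => 0, H751R3.JT.T, fun _ => (), H751R3.JT.lab,
    H751R3.JT.opH H751R3.JT.av, H751R3.JT.e0, H751R3.JT.gr,
    ⟨⟨()⟩, fun x y => Relation.ReflTransGen.refl⟩, ?_,
    fun e => H751R3.JT.av_pos _, fun e => rfl, isCover, isJacobi, isGreen, algebraic, ramified⟩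
  simp

end Pool.Agent.Results.MP_3f5b22_an.RamificationThree
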